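import Pool.Agent.Helper96.VF.Goals

/-!
Project VF (MP_6829b3_nt), packet VF-S1B.
-/

set_option autoImplicit false

namespace Pool.Agent.Helper36.VF

open Pool.Agent.Helper96.VF

theorem gS1B : S1B := by
  intro f n p₃ q₃ p₇ q₇ p q h3 h7 h hL5 hL7 hne1 hne2
  obtain ⟨a1, a2, a3, a4⟩ := h3
  obtain ⟨b1, b2, b3, b4⟩ := h7
  obtain ⟨c1, c2, c3, c4⟩ := h
  obtain ⟨l1, l2⟩ := hL5
  obtain ⟨l3, l4⟩ := hL7
  refine ⟨fun hT => ?_, fun hT => ?_⟩
  · have hT7 : TC True n p₇ q₇ := by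
      by_contra hc
      exact hne2 (iff_of_false hc hT)
    have hT3 : ¬ TC f n p₃ q₃ := fun hc => hne1 (iff_of_true hc hT7)
    obtain ⟨t1, t2, t3⟩ := hT7
    have t2' : ¬ (16 * p₇ ≤ 5 * n ∧ 2 * q₇ ≤ n ∧ 5 * n < 12 * q₇) := fun hh => t2 ⟨trivial, hh⟩
    refine ⟨?_, ?_⟩
    · by_contra hc
      rcases l3 with l3 | l3 <;> omega
    · by_contra hc
      refine hT3 ⟨?_, ?_, ?_⟩
      · have e1 : 7 * q₇ = 3 * q := by omega
        have e2 : 5 * n < 16 * p₇ := by omega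
        omega
      · rintro ⟨-, x1, x2, x3⟩
        have e1 : 7 * q₇ = 3 * q := by omega
        have e2 : 5 * q₃ = 9 * q₇ := by omega
        omega
      · rintro ⟨x1, x2, x3⟩
        have e1 : 7 * q₇ = 3 * q := by omega
        have e2 : 5 * n < 16 * p₇ := by omega
        omega
  · have hT7 : ¬ TC True n p₇ q₇ := fun hc => hne2 (iff_of_true hc hT)
    have hT3 : TC f n p₃ q₃ := by
      by_contra hc
      exact hne1 (iff_of_false hc hT7)
    obtain ⟨s1, s2, s3⟩ := hT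
    obtain ⟨t1, -, -⟩ := hT3
    have s2' : ¬ (16 * p ≤ 5 * n ∧ 2 * q ≤ n ∧ 5 * n < 12 * q) := fun hh => s2 ⟨trivial, hh⟩
    refine ⟨?_, ?_⟩
    · by_contra hc
      have e1 : 7 * p₇ = 4 * p := by omega
      have e2 : 5 * p₃ = 16 * p₇ := by omega
      omega
    · rintro ⟨y1, y2⟩
      have e0 : 7 * q₇ = 9 * q := by omega
      refine hT7 ⟨?_, ?_, ?_⟩
      · by_contra hc
        have e1 : 5 * p₃ = 4 * p₇ := by omega
        have e2 : 7 * p₇ = 16 * p := by omega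
        exact s2' ⟨by omega, y1, by omega⟩
      · rintro ⟨-, x1, x2, x3⟩
        omega
      · rintro ⟨x1, x2, x3⟩
        omega

end Pool.Agent.Helper36.VF
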